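import Pool.Agent.H46.OP.Fin
import Pool.Agent.H46.SP.Main

/-!
# Meromorphic continuation of `L(E/K, s)`: number fields with at most one exceptional prime suffice

Let `E` be an elliptic curve over a number field `K`, let `X` be given and let `T / K` be a finite
extension. Then for `Re s > 3/2`

`L(E/K, s) = R(s) ∏ L(E/F, s) ^ n_F`, `∑ n_F · embeddings F g = 1` for all `g`,

with `R` meromorphic on the plane and with finite extensions `F` of `K` for each of which there is a
prime number `p` such that

* all primes of `F` but at most one have norm `> X` and are not bad for `E`: the reduction of `E` is good or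
  split multiplicative, or `p ≤ 3` and it becomes so over a Galois extension with a `p`-group as
  decomposition group;
* `F` has a Galois extension `F'` with a `p`-hyperelementary group which contains `T` and over which `E` has
  good or split multiplicative reduction everywhere.

So the meromorphic Hasse-Weil conjecture for such pairs `(F, E)` implies it for all elliptic curves over
all number fields.

The proof. There is a Galois extension `M / K`, containing `T`, and a subextension whose degree has only
the prime divisors `2, 3` over which `E` has good or split multiplicative reduction everywhere. By the theorem of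
Banaschewski and Solomon it is enough to find for every `p`-hyperelementary subgroup of `Gal(M/K)`, with
fixed field `K_C`, a relation `∑ n_F · embeddings F g = m` over `K_C` with `m` prime to `p` and with
fields `F` all whose places above the finite set `S`, but one, have `p`-groups as decomposition groups in
`F M / F`. For every prime `v ∈ S` and every subgroup `U` of the decomposition group at `v` of a large
extension there are monic polynomials `f` over `K_C` which are at `v` close to a polynomial with the
Galois set of roots `D_v / U` and at the other primes of `S` close to a polynomial all whose roots have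
decomposition groups in `F M / F` which are `p`-groups (approximation at several primes with a finite form
of Krasner's lemma). Products of the corresponding permutation characters, the local relations of
Solomon's theorem and the cyclic groups outside of all decomposition groups give the relation.
-/

set_option autoImplicit false

namespace Pool.Agent.Results.MP_0d9be2_nt.OneBadPrime

open NumberField IsDedekindDomain
open scoped Pointwise

/-- `V v` is, for every prime `v`, an integral model of `E` with discriminant minimal at `v`. -/
def MinimalModels {K : Type} [Field K] [NumberField K] (E : WeierstrassCurve K)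
    (V : HeightOneSpectrum (𝓞 K) → WeierstrassCurve (𝓞 K)) : Prop :=
  ∀ v : HeightOneSpectrum (𝓞 K),
    (∃ C : WeierstrassCurve.VariableChange K, C • (V v).map (algebraMap (𝓞 K) K) = E) ∧
    ∀ W : WeierstrassCurve (𝓞 K),
      (∃ C : WeierstrassCurve.VariableChange K, C • W.map (algebraMap (𝓞 K) K) = E) →
        ∀ n : ℕ, (V v).Δ ∈ v.asIdeal ^ n → W.Δ ∈ v.asIdeal ^ n

open Classical in
/-- The Euler product of `L(E/K, s)` over all primes `v` of `K`, computed from the reductions of the
models `V v`. -/
noncomputable def LSeries {K : Type} [Field K] [NumberField K]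
    (V : HeightOneSpectrum (𝓞 K) → WeierstrassCurve (𝓞 K)) (s : ℂ) : ℂ :=
  ∏' v : HeightOneSpectrum (𝓞 K),
    (1 - ((Ideal.absNorm v.asIdeal : ℂ)
          - (Nat.card {xy : (𝓞 K ⧸ v.asIdeal) × (𝓞 K ⧸ v.asIdeal) //
              ((V v).map (Ideal.Quotient.mk v.asIdeal)).toAffine.Equation xy.1 xy.2} : ℂ))
          * (Ideal.absNorm v.asIdeal : ℂ) ^ (-s)
      + (if (V v).Δ ∈ v.asIdeal then 0 else (Ideal.absNorm v.asIdeal : ℂ))
          * (Ideal.absNorm v.asIdeal : ℂ) ^ (-2 * s))⁻¹

/-- `L(E/K, s)` has a meromorphic continuation to the set `U` of complex numbers. -/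
def Continues {K : Type} [Field K] [NumberField K] (E : WeierstrassCurve K) (U : Set ℂ) : Prop :=
  ∃ Λ : ℂ → ℂ, MeromorphicOn Λ U ∧
    ∀ V : HeightOneSpectrum (𝓞 K) → WeierstrassCurve (𝓞 K), MinimalModels E V →
      ∀ s : ℂ, 3 / 2 < s.re → Λ s = LSeries V s

/-- The number of `K`-embeddings of `F` into the subfield of `L` fixed by `g`. -/
noncomputable def embeddings {K L : Type} [Field K] [Field L] [Algebra K L]
    (F : IntermediateField K L) (g : Gal(L/K)) : ℕ :=
  Nat.card {τ : F →ₐ[K] L // ∀ x, g (τ x) = τ x}

/-- `∑ n_F · embeddings F g = m` for all `g`, the sum over the `F ∈ S`. -/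
def CharacterRelation {K L : Type} [Field K] [Field L] [Algebra K L]
    (S : Finset (IntermediateField K L)) (n : IntermediateField K L → ℤ) (m : ℤ) : Prop :=
  ∀ g : Gal(L/K), ∑ F ∈ S, n F * (embeddings F g : ℤ) = m

/-- `L(E/K, s) = R(s) ∏ L(E/F, s) ^ n_F` for `Re s > 3/2`, the product over the `F ∈ S`, with a
function `R` meromorphic on the plane and different from `0` for `Re s > 3/2`. -/
def Factorization {K L : Type} [Field K] [NumberField K] [Field L] [NumberField L] [Algebra K L]
    (S : Finset (IntermediateField K L)) (n : IntermediateField K L → ℤ)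
    (E : WeierstrassCurve K) : Prop :=
  ∃ R : ℂ → ℂ, MeromorphicOn R Set.univ ∧
    ∀ (V : HeightOneSpectrum (𝓞 K) → WeierstrassCurve (𝓞 K))
      (VF : ∀ F : IntermediateField K L, HeightOneSpectrum (𝓞 F) → WeierstrassCurve (𝓞 F)),
      MinimalModels E V →
      (∀ F : IntermediateField K L, MinimalModels (E.map (algebraMap K F)) (VF F)) →
      ∀ s : ℂ, 3 / 2 < s.re → R s ≠ 0 ∧
        LSeries V s = R s * ∏ F ∈ S, LSeries (VF F) s ^ n F

/-- If all the `L(E/F, s)`, `F ∈ S`, have meromorphic continuations to a set `U`, then so has
`L(E/K, s)`. -/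
def ContinuationDescends {K L : Type} [Field K] [NumberField K] [Field L] [NumberField L]
    [Algebra K L] (S : Finset (IntermediateField K L)) (E : WeierstrassCurve K) : Prop :=
  ∀ U : Set ℂ, (∀ F ∈ S, Continues (E.map (algebraMap K F)) U) → Continues E U

/-- `F` has a prime above `v` of the same norm as `v`. -/
def HasPrimeOfSameNorm {K L : Type} [Field K] [NumberField K] [Field L] [NumberField L]
    [Algebra K L] (v : HeightOneSpectrum (𝓞 K)) (F : IntermediateField K L) : Prop :=
  ∃ w : HeightOneSpectrum (𝓞 F), w.asIdeal.under (𝓞 K) = v.asIdeal ∧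
    Ideal.absNorm w.asIdeal = Ideal.absNorm v.asIdeal

/-- `E` has good or split multiplicative reduction at the prime `w` of `F`: it has a model with
coefficients in `𝓞 F` whose discriminant is prime to `w`, or whose reduction modulo `w` is the cubic
`y² + c x y = x³` with `c ≠ 0`, which has a node with the rational tangents `y = 0` and `y = - c x`. -/
def GoodOrSplit {F : Type} [Field F] [NumberField F] (E : WeierstrassCurve F)
    (w : HeightOneSpectrum (𝓞 F)) : Prop :=
  ∃ V : WeierstrassCurve (𝓞 F),
    (∃ C : WeierstrassCurve.VariableChange F, C • V.map (algebraMap (𝓞 F) F) = E) ∧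
    (V.Δ ∉ w.asIdeal ∨ (V.a₁ ∉ w.asIdeal ∧ V.a₂ ∈ w.asIdeal ∧ V.a₃ ∈ w.asIdeal ∧
      V.a₄ ∈ w.asIdeal ∧ V.a₆ ∈ w.asIdeal))

/-- `E` acquires good or split multiplicative reduction at a prime `W` above `w` of a Galois extension
`F'` of `F` such that the decomposition group of `W` is a `p`-group. -/
def AcquiresOverPGroup {F : Type} [Field F] [NumberField F] (p : ℕ) (E : WeierstrassCurve F)
    (w : HeightOneSpectrum (𝓞 F)) : Prop :=
  ∃ (F' : Type) (_ : Field F') (_ : NumberField F') (_ : Algebra F F')
    (W : HeightOneSpectrum (𝓞 F')),
    IsGalois F F' ∧ W.asIdeal.under (𝓞 F) = w.asIdeal ∧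
      GoodOrSplit (E.map (algebraMap F F')) W ∧
      ∀ σ : Gal(F'/F), σ • W.asIdeal = W.asIdeal → ∃ k : ℕ, σ ^ p ^ k = 1

/-- The prime `w` of `F` is exceptional: it has norm `≤ X`, or the reduction of `E` is neither good nor split
multiplicative nor, if `p = 2` or `p = 3`, becomes so as above. -/
def Exceptional {F : Type} [Field F] [NumberField F] (p X : ℕ) (E : WeierstrassCurve F)
    (w : HeightOneSpectrum (𝓞 F)) : Prop :=
  Ideal.absNorm w.asIdeal ≤ X ∨
    ¬ (GoodOrSplit E w ∨ ((p = 2 ∨ p = 3) ∧ AcquiresOverPGroup p E w))

/-- `F` has at most one exceptional prime. -/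
def AtMostOneExceptional {F : Type} [Field F] [NumberField F] (p X : ℕ) (E : WeierstrassCurve F) :
    Prop :=
  ∀ w w' : HeightOneSpectrum (𝓞 F), Exceptional p X E w → Exceptional p X E w' → w = w'

/-- The group `G` is `p`-hyperelementary: it has a cyclic normal subgroup `C` of order prime to `p` such
that `G / C` is a `p`-group. -/
def Hyperelementary (p : ℕ) (G : Type) [Group G] : Prop :=
  ∃ C : Subgroup G, C.Normal ∧ IsCyclic C ∧ (Nat.card C).Coprime p ∧
    ∀ g : G, ∃ k : ℕ, g ^ p ^ k ∈ C

/-- `F` has a Galois extension `F'` with a `p`-hyperelementary group over which `E` has good or split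
multiplicative reduction everywhere and which contains the extension `T` of `K` (`K ⊆ F`). -/
def HasHyperelementaryExtension (p : ℕ) (K T F : Type) [Field K] [Field T] [Field F]
    [NumberField F] [Algebra K T] [Algebra K F] (E : WeierstrassCurve F) : Prop :=
  ∃ (F' : Type) (_ : Field F') (_ : NumberField F') (_ : Algebra F F'),
    IsGalois F F' ∧ Hyperelementary p Gal(F'/F) ∧
    (∃ j : T →+* F', ∀ x : K, j (algebraMap K T x) = algebraMap F F' (algebraMap K F x)) ∧
    ∀ w : HeightOneSpectrum (𝓞 F'), GoodOrSplit (E.map (algebraMap F F')) w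

/-- For some prime number `p` both properties hold. -/
def Special (X : ℕ) (K T F : Type) [Field K] [Field T] [Field F] [NumberField F] [Algebra K T]
    [Algebra K F] (E : WeierstrassCurve F) : Prop :=
  ∃ p : ℕ, p.Prime ∧ AtMostOneExceptional p X E ∧ HasHyperelementaryExtension p K T F E

section Aux

open Pool.Agent.H341R2.EC Pool.Agent.R433.MD
open Pool.Agent.H921R2.TatePole (nm two_le_nm)

variable {K : Type} [Field K] [NumberField K]

omit [NumberField K] in
theorem isModel_iff (E : WeierstrassCurve K) (W : WeierstrassCurve (𝓞 K)) :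
    (∃ C : WeierstrassCurve.VariableChange K, C • W.map (algebraMap (𝓞 K) K) = E) ↔
      IsModel E W := by
  constructor
  · rintro ⟨C, hC⟩
    exact ⟨C⁻¹, by rw [← hC, inv_smul_smul]⟩
  · rintro ⟨C, hC⟩
    exact ⟨C⁻¹, by rw [← hC, inv_smul_smul]⟩

theorem minimalModels_iff (E : WeierstrassCurve K)
    (V : HeightOneSpectrum (𝓞 K) → WeierstrassCurve (𝓞 K)) :
    MinimalModels E V ↔ ∀ v, IsMinAt E v (V v) := by
  unfold MinimalModels IsMinAt
  simp only [isModel_iff]

theorem lseries_eq (V : HeightOneSpectrum (𝓞 K) → WeierstrassCurve (𝓞 K)) (s : ℂ) :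
    LSeries V s = LL V s := by
  unfold LSeries LL
  refine tprod_congr fun v => ?_
  congr 1
  unfold lf trc dlt
  have h0 : ((nm v : ℕ) : ℂ) ≠ 0 := by
    have := two_le_nm v
    exact_mod_cast (by omega : nm v ≠ 0)
  have e1 : Nat.card {xy : (𝓞 K ⧸ v.asIdeal) × (𝓞 K ⧸ v.asIdeal) //
      ((V v).map (Ideal.Quotient.mk v.asIdeal)).toAffine.Equation xy.1 xy.2} =
      aff (red v (V v)) := by
    unfold aff red
    refine Nat.card_congr (Equiv.subtypeEquivRight fun xy => ?_)
    rw [WeierstrassCurve.Affine.equation_iff]
  have e2 : ((nm v : ℕ) : ℂ) ^ (1 - 2 * s) = ((nm v : ℕ) : ℂ) * ((nm v : ℕ) : ℂ) ^ (-2 * s) := by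
    rw [sub_eq_add_neg, Complex.cpow_add _ _ h0, Complex.cpow_one]
    congr 2
    ring
  have e3 : (Ideal.absNorm v.asIdeal : ℂ) = ((nm v : ℕ) : ℂ) := rfl
  rw [e1, e2, e3]
  push_cast
  split_ifs with h
  · ring
  · ring

theorem ll_unique {E : WeierstrassCurve K} (hE : E.IsElliptic)
    {V V' : HeightOneSpectrum (𝓞 K) → WeierstrassCurve (𝓞 K)} (hV : ∀ v, IsMinAt E v (V v))
    (hV' : ∀ v, IsMinAt E v (V' v)) (s : ℂ) : LL V s = LL V' s := by
  classical
  have h : ∀ v, lf V s v = lf V' s v := by
    intro v
    obtain ⟨h1, h2⟩ := aff_minimal v hE (hV v) (hV' v)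
    have e1 : trc V v = trc V' v := by
      rw [trc, trc, h1]
    have e2 : dlt V v = dlt V' v := by
      rw [dlt, dlt]
      simp only [h2]
    rw [lf, lf, e1, e2]
  rw [LL, LL]
  simp only [h]

theorem continues_iff {E : WeierstrassCurve K} (hE : E.IsElliptic) (U : Set ℂ) :
    Continues E U ↔ Pool.Agent.R433.MD.Cont E U 1 := by
  unfold Continues Pool.Agent.R433.MD.Cont
  simp only [minimalModels_iff, lseries_eq, pow_one]
  constructor
  · rintro ⟨Λ, h1, h2⟩
    obtain ⟨V, hV⟩ := exists_minimal E hE
    exact ⟨V, hV, Λ, h1, h2 V hV⟩
  · rintro ⟨V, hV, Λ, h1, h2⟩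
    refine ⟨Λ, h1, fun V' hV' s hs => ?_⟩
    rw [h2 s hs, ll_unique hE hV hV' s]

end Aux

/-- the relation -/
theorem relation_exists (K : Type) [Field K] [NumberField K] (E : WeierstrassCurve K)
    (hE : E.IsElliptic) (X : ℕ) (T : Type) [Field T] [NumberField T] [Algebra K T] :
    ∃ (L : Type) (_ : Field L) (_ : NumberField L) (_ : Algebra K L)
      (S : Finset (IntermediateField K L)) (n : IntermediateField K L → ℤ),
      IsGalois K L ∧ CharacterRelation S n 1 ∧
        (∀ F ∈ S, Special X K T F (E.map (algebraMap K F))) ∧
        ∀ E' : WeierstrassCurve K, E'.IsElliptic →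
          Factorization S n E' ∧ ContinuationDescends S E' := by
  obtain ⟨L, _, _, _, hG, -, hspan⟩ := Pool.Agent.H46.OP.exists_rel K E X T
  obtain ⟨S, n, hS, hsum⟩ := Pool.Agent.H46.OP.exists_finset _ _ hspan
  refine ⟨L, inferInstance, inferInstance, inferInstance, S, n, hG, ?_, ?_, ?_⟩
  · intro g
    rw [← hsum g]
    exact Finset.sum_congr rfl fun F _ => by
      rw [Pool.Agent.R433.MD.fx_eq_emb]
      rfl
  · intro F hF
    have h1 := hS F hF
    rw [IsGalois.fixedField_fixingSubgroup] at h1
    exact h1
  · intro E' hE'
    have hsum' : ∀ g : Gal(L/K),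
        ∑ F ∈ S, n F * Pool.Agent.R433.MD.fx F.fixingSubgroup g = ((1 : ℕ) : ℤ) := hsum
    constructor
    · obtain ⟨V0, hV0⟩ := Pool.Agent.R433.MD.exists_minimal E' hE'
      choose W hW using fun F : IntermediateField K L =>
        Pool.Agent.R433.MD.exists_minimal (E'.map (algebraMap K F)) inferInstance
      obtain ⟨R, hR, hRL⟩ := Pool.Agent.R433.MD.gal_rel S 1 n hsum' E' hE' V0 hV0 W hW
      refine ⟨R, hR, fun V VF hV hVF s hs => ?_⟩
      obtain ⟨h1, h2⟩ := hRL s hs
      refine ⟨h1, ?_⟩
      rw [minimalModels_iff] at hV
      rw [lseries_eq, ll_unique hE' hV hV0]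
      rw [pow_one] at h2
      rw [h2]
      congr 1
      refine Finset.prod_congr rfl fun F _ => ?_
      rw [lseries_eq, ll_unique inferInstance
        ((minimalModels_iff _ _).1 (hVF F)) (hW F)]
    · intro U h
      rw [continues_iff hE']
      exact Pool.Agent.R433.MD.gal_cont S 1 n hsum' E' hE' U fun F hF =>
        (continues_iff inferInstance U).1 (h F hF)

/-- **Number fields with at most one exceptional prime suffice.**

1. Let `E` be an elliptic curve over a number field `K`, let `X` be given and let `T / K` be a finite
extension. There are a finite Galois extension `L / K` and finitely many intermediate fields `F` with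
integers `n_F`, such that: `∑ n_F · embeddings F g = 1` for all `g ∈ Gal(L/K)`; for every `F` there is a prime
number `p` such that all primes of `F` but at most one have norm `> X` and good or split multiplicative
reduction of `E` (for `p = 2, 3`: possibly after a `p`-extension of the completion), and `F` has a
Galois extension with a `p`-hyperelementary group which contains `T` and over which `E` has good or split
multiplicative reduction everywhere; and for ALL elliptic curves `E'` over `K`,
`L(E'/K, s) = R(s) ∏ L(E'/F, s) ^ n_F` for `Re s > 3/2`, with a function `R` meromorphic on the plane and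
different from `0` for `Re s > 3/2`; and for every set `U` of complex numbers, if the `L(E'/F, s)`
have meromorphic continuations to `U`, then so has `L(E'/K, s)`.

2. Let `E`, `K`, `X`, `T` and a set `U` be given. If `L(E/F, s)` has a meromorphic continuation to `U` for
all finite extensions `F` of `K` with these properties, then `L(E/K, s)` has a meromorphic
continuation to `U`.

3. If for one `X` the `L`-series of all elliptic curves over number fields with these properties (for
some `p`, and without `T`) have meromorphic continuations to the plane, then the `L`-series of all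
elliptic curves over all number fields have meromorphic continuations to the plane.

4. The bound one is optimal: if `m ≠ 0` and `∑ n_F · embeddings F g = m` for all `g ∈ Gal(L/K)`, for
finitely many intermediate fields `F` of a finite Galois extension `L / K`, then for every prime `v` of
`K` one of the `F` with `n_F ≠ 0` has a prime above `v` whose norm is the norm of `v`. -/
theorem result :
    (∀ (K : Type) [Field K] [NumberField K] (E : WeierstrassCurve K), E.IsElliptic →
      ∀ (X : ℕ) (T : Type) [Field T] [NumberField T] [Algebra K T],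
      ∃ (L : Type) (_ : Field L) (_ : NumberField L) (_ : Algebra K L)
        (S : Finset (IntermediateField K L)) (n : IntermediateField K L → ℤ),
        IsGalois K L ∧ CharacterRelation S n 1 ∧
          (∀ F ∈ S, Special X K T F (E.map (algebraMap K F))) ∧
          ∀ E' : WeierstrassCurve K, E'.IsElliptic →
            Factorization S n E' ∧ ContinuationDescends S E') ∧
    (∀ (K : Type) [Field K] [NumberField K] (E : WeierstrassCurve K), E.IsElliptic →
      ∀ (X : ℕ) (T : Type) [Field T] [NumberField T] [Algebra K T] (U : Set ℂ),
      (∀ (F : Type) [Field F] [NumberField F] [Algebra K F],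
        Special X K T F (E.map (algebraMap K F)) → Continues (E.map (algebraMap K F)) U) →
      Continues E U) ∧
    (∀ X : ℕ,
      (∀ (F : Type) [Field F] [NumberField F] (E : WeierstrassCurve F), E.IsElliptic →
        Special X F F F E → Continues E Set.univ) →
      ∀ (K : Type) [Field K] [NumberField K] (E : WeierstrassCurve K), E.IsElliptic →
        Continues E Set.univ) ∧
    ∀ (K L : Type) [Field K] [NumberField K] [Field L] [NumberField L] [Algebra K L]
      [IsGalois K L] (S : Finset (IntermediateField K L)) (n : IntermediateField K L → ℤ) (m : ℤ),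
      m ≠ 0 → CharacterRelation S n m →
      ∀ v : HeightOneSpectrum (𝓞 K), ∃ F ∈ S, n F ≠ 0 ∧ HasPrimeOfSameNorm v F := by
  have h2 : ∀ (K : Type) [Field K] [NumberField K] (E : WeierstrassCurve K), E.IsElliptic →
      ∀ (X : ℕ) (T : Type) [Field T] [NumberField T] [Algebra K T] (U : Set ℂ),
      (∀ (F : Type) [Field F] [NumberField F] [Algebra K F],
        Special X K T F (E.map (algebraMap K F)) → Continues (E.map (algebraMap K F)) U) →
      Continues E U := by
    intro K _ _ E hE X T _ _ _ U h
    obtain ⟨L, _, _, _, S, n, hG, -, hS, hE'⟩ := relation_exists K E hE X T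
    exact (hE' E hE).2 U fun F hF => h F (hS F hF)
  refine ⟨fun K _ _ E hE X T _ _ _ => relation_exists K E hE X T, h2, ?_, ?_⟩
  · intro X h K _ _ E hE
    refine h2 K E hE X K Set.univ fun F _ _ _ hF => h F _ inferInstance ?_
    obtain ⟨p, hp, hF1, F', _, _, _, hG, hhyp, -, hred⟩ := hF
    exact ⟨p, hp, hF1, F', inferInstance, inferInstance, inferInstance, hG, hhyp,
      ⟨algebraMap F F', fun x => rfl⟩, hred⟩
  · intro K L _ _ _ _ _ _ S n m hm h v
    exact Pool.Agent.H46.SP.exists_degree_one S n m hm h v

end Pool.Agent.Results.MP_0d9be2_nt.OneBadPrime
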