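import Pool.Agent.H67.PF.Three

/-!
# Meromorphic continuation of `L(E/K, s)`: primitive extensions with symmetric group suffice

For an odd number `m` and a permutation `g` of `2m` points let `s_k(g)` be the number of the `g`-invariant
sets of `k` points and `p(g)` the number of the `g`-invariant partitions into two blocks of `m` points.
Then

`1 = p(g) + s_1(g) - s_2(g) + s_3(g) - ⋯ - s_{m-1}(g)`.

The stabilizers of the `k`-sets, `1 ≤ k < m`, and of these partitions are maximal subgroups of the
symmetric group. So in every extension `L / K` with group `S_{2m}` the `L`-series of an elliptic curve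
over `K` is, up to finitely many Euler factors, an alternating product of its `L`-series over `m` fields
`F_k` for which there are no fields strictly between `K` and `F_k`. For `m = 3` these are three fields,
of degrees `10`, `6` and `15`, and three is the least possible number of fields.

We show that every number field `K` has such extensions `L`, for all odd `m ≥ 3`, in which in addition
given primes of `K` and all real places of `K` split completely. The proof: there is a monic polynomial
`f` over the integers of `K`, of degree `2m`, which is irreducible modulo a first prime, linear times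
irreducible modulo a second and linear times quadratic times irreducible modulo a third prime, which is
close to a split polynomial at the given primes, and which has only real roots in all real embeddings.
The Frobenius elements of the three primes show that its group is doubly transitive and contains a
transposition.
-/

set_option autoImplicit false

namespace Pool.Agent.Results.MP_0d9be2_nt.PrimitiveFields

open NumberField IsDedekindDomain
open scoped Pointwise

/-- `V v` is, for every prime `v`, an integral model of `E` with discriminant minimal at `v`. -/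
def MinimalModels {K : Type} [Field K] [NumberField K] (E : WeierstrassCurve K)
    (V : HeightOneSpectrum (𝓞 K) → WeierstrassCurve (𝓞 K)) : Prop :=
  ∀ v : HeightOneSpectrum (𝓞 K),
    (∃ C : WeierstrassCurve.VariableChange K, C • (V v).map (algebraMap (𝓞 K) K) = E) ∧
    ∀ W : WeierstrassCurve (𝓞 K),
      (∃ C : WeierstrassCurve.VariableChange K, C • W.map (algebraMap (𝓞 K) K) = E) →
        ∀ n : ℕ, (V v).Δ ∈ v.asIdeal ^ n → W.Δ ∈ v.asIdeal ^ n

open Classical in
/-- The Euler product of `L(E/K, s)` over all primes `v` of `K`, computed from the reductions of the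
models `V v`. -/
noncomputable def LSeries {K : Type} [Field K] [NumberField K]
    (V : HeightOneSpectrum (𝓞 K) → WeierstrassCurve (𝓞 K)) (s : ℂ) : ℂ :=
  ∏' v : HeightOneSpectrum (𝓞 K),
    (1 - ((Ideal.absNorm v.asIdeal : ℂ)
          - (Nat.card {xy : (𝓞 K ⧸ v.asIdeal) × (𝓞 K ⧸ v.asIdeal) //
              ((V v).map (Ideal.Quotient.mk v.asIdeal)).toAffine.Equation xy.1 xy.2} : ℂ))
          * (Ideal.absNorm v.asIdeal : ℂ) ^ (-s)
      + (if (V v).Δ ∈ v.asIdeal then 0 else (Ideal.absNorm v.asIdeal : ℂ))
          * (Ideal.absNorm v.asIdeal : ℂ) ^ (-2 * s))⁻¹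

/-- `L(E/K, s)` has a meromorphic continuation to the set `U` of complex numbers. -/
def Continues {K : Type} [Field K] [NumberField K] (E : WeierstrassCurve K) (U : Set ℂ) : Prop :=
  ∃ Λ : ℂ → ℂ, MeromorphicOn Λ U ∧
    ∀ V : HeightOneSpectrum (𝓞 K) → WeierstrassCurve (𝓞 K), MinimalModels E V →
      ∀ s : ℂ, 3 / 2 < s.re → Λ s = LSeries V s

/-- The number of `K`-embeddings of `F` into the subfield of `L` fixed by `g`. -/
noncomputable def embeddings {K L : Type} [Field K] [Field L] [Algebra K L]
    (F : IntermediateField K L) (g : Gal(L/K)) : ℕ :=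
  Nat.card {τ : F →ₐ[K] L // ∀ x, g (τ x) = τ x}

/-- There are no fields strictly between `K` and `F`, and `F ≠ K`. -/
def IsPrimitive (K F : Type) [Field K] [Field F] [Algebra K F] : Prop :=
  (⊥ : IntermediateField K F) ≠ ⊤ ∧ ∀ E : IntermediateField K F, E = ⊥ ∨ E = ⊤

/-- `F` is contained in a Galois extension `L` of `K` whose group is the symmetric group `S_n`. -/
def InSymmetric (n : ℕ) (K F : Type) [Field K] [Field F] [Algebra K F] : Prop :=
  ∃ (L : Type) (_ : Field L) (_ : Algebra K L), IsGalois K L ∧
    Nonempty (Gal(L/K) ≃* Equiv.Perm (Fin n)) ∧ Nonempty (F →ₐ[K] L)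

/-- The prime `v` of `K` splits completely in `F`: there are `[F : K]` primes of `F` above `v`. -/
def SplitsCompletely {K : Type} [Field K] [NumberField K] (v : HeightOneSpectrum (𝓞 K))
    (F : Type) [Field F] [NumberField F] [Algebra K F] : Prop :=
  Nat.card {u : HeightOneSpectrum (𝓞 F) // u.asIdeal.under (𝓞 K) = v.asIdeal} =
    Module.finrank K F

/-- The real places of `K` split completely in `F`: an embedding of `F` in `ℂ` which is real on `K` is
real. -/
def RealPlacesSplit (K F : Type) [Field K] [Field F] [Algebra K F] : Prop :=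
  ∀ ψ : F →+* ℂ, (∀ x : K, (ψ (algebraMap K F x)).im = 0) → ∀ y : F, (ψ y).im = 0

/-- The extensions `F / K` of the theorem: primitive, of degree `(2m choose k)` with `1 ≤ k < m` or
`(2m choose m) / 2`, contained in an extension with group `S_{2m}`; the primes in `S` and the real places
of `K` split completely in `F`. -/
structure SpecialExtension (m : ℕ) {K : Type} [Field K] [NumberField K]
    (S : Finset (HeightOneSpectrum (𝓞 K))) (F : Type) [Field F] [NumberField F] [Algebra K F] :
    Prop where
  primitive : IsPrimitive K F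
  degree : 2 * Module.finrank K F = (2 * m).choose m ∨
    ∃ k, 1 ≤ k ∧ k < m ∧ Module.finrank K F = (2 * m).choose k
  symmetric : InSymmetric (2 * m) K F
  split : ∀ v ∈ S, SplitsCompletely v F
  real : RealPlacesSplit K F

/-- The exponents: `1` for `k = 0` and `(-1) ^ (k + 1)` for `1 ≤ k < m`. -/
def exponent {m : ℕ} (k : Fin m) : ℤ := if (k : ℕ) = 0 then 1 else (-1) ^ ((k : ℕ) + 1)

/-- `L / K` is a Galois extension with group `S_{2m}`; `F 0, …, F (m - 1)` are different intermediate
fields, `[F 0 : K] = (2m choose m) / 2`, `[F k : K] = (2m choose k)` for `k ≥ 1`, all of them are special;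
and `∑ exponent k · embeddings (F k) g = 1` for all `g`. -/
structure PrimitiveRelation {K L : Type} [Field K] [NumberField K] [Field L] [NumberField L]
    [Algebra K L] (m : ℕ) (S : Finset (HeightOneSpectrum (𝓞 K)))
    (F : Fin m → IntermediateField K L) : Prop where
  isGalois : IsGalois K L
  group : Nonempty (Gal(L/K) ≃* Equiv.Perm (Fin (2 * m)))
  different : Function.Injective F
  degree_zero : ∀ k : Fin m, (k : ℕ) = 0 → 2 * Module.finrank K (F k) = (2 * m).choose m
  degree_pos : ∀ k : Fin m, (k : ℕ) ≠ 0 → Module.finrank K (F k) = (2 * m).choose k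
  special : ∀ k, SpecialExtension m S (F k)
  relation : ∀ g : Gal(L/K), ∑ k, exponent k * (embeddings (F k) g : ℤ) = 1

/-- `L(E/K, s) = R(s) ∏ L(E/F_k, s) ^ exponent k` for `Re s > 3/2`, with a function `R` meromorphic on
the plane and different from `0` for `Re s > 3/2`. -/
def Factorization {K L : Type} [Field K] [NumberField K] [Field L] [NumberField L] [Algebra K L]
    {m : ℕ} (F : Fin m → IntermediateField K L) (E : WeierstrassCurve K) : Prop :=
  ∃ R : ℂ → ℂ, MeromorphicOn R Set.univ ∧
    ∀ (V : HeightOneSpectrum (𝓞 K) → WeierstrassCurve (𝓞 K))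
      (VF : ∀ k : Fin m, HeightOneSpectrum (𝓞 (F k)) → WeierstrassCurve (𝓞 (F k))),
      MinimalModels E V →
      (∀ k, MinimalModels (E.map (algebraMap K (F k))) (VF k)) →
      ∀ s : ℂ, 3 / 2 < s.re → R s ≠ 0 ∧
        LSeries V s = R s * ∏ k, LSeries (VF k) s ^ exponent k

/-- If all the `L(E/F_k, s)` have meromorphic continuations to a set `U`, then so has `L(E/K, s)`. -/
def ContinuationDescends {K L : Type} [Field K] [NumberField K] [Field L] [NumberField L]
    [Algebra K L] {m : ℕ} (F : Fin m → IntermediateField K L) (E : WeierstrassCurve K) : Prop :=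
  ∀ U : Set ℂ, (∀ k, Continues (E.map (algebraMap K (F k))) U) → Continues E U

/-- `L(E/F, s)` has a meromorphic continuation to `U` for all special extensions `F` of `K`. -/
def ContinuesOverSpecial (m : ℕ) {K : Type} [Field K] [NumberField K]
    (S : Finset (HeightOneSpectrum (𝓞 K))) (E : WeierstrassCurve K) (U : Set ℂ) : Prop :=
  ∀ (F : Type) [Field F] [NumberField F] [Algebra K F], SpecialExtension m S F →
    Continues (E.map (algebraMap K F)) U

/-- The question for one number field: the `L`-series of all elliptic curves over `F` have meromorphic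
continuations to the plane. -/
def HasseWeilMeromorphic (F : Type) [Field F] [NumberField F] : Prop :=
  ∀ E : WeierstrassCurve F, E.IsElliptic → Continues E Set.univ

section Aux

open Pool.Agent.H341R2.EC Pool.Agent.R433.MD
open Pool.Agent.H921R2.TatePole (nm two_le_nm)

variable {K : Type} [Field K] [NumberField K]

omit [NumberField K] in
theorem isModel_iff (E : WeierstrassCurve K) (W : WeierstrassCurve (𝓞 K)) :
    (∃ C : WeierstrassCurve.VariableChange K, C • W.map (algebraMap (𝓞 K) K) = E) ↔
      IsModel E W := by
  constructor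
  · rintro ⟨C, hC⟩
    exact ⟨C⁻¹, by rw [← hC, inv_smul_smul]⟩
  · rintro ⟨C, hC⟩
    exact ⟨C⁻¹, by rw [← hC, inv_smul_smul]⟩

theorem minimalModels_iff (E : WeierstrassCurve K)
    (V : HeightOneSpectrum (𝓞 K) → WeierstrassCurve (𝓞 K)) :
    MinimalModels E V ↔ ∀ v, IsMinAt E v (V v) := by
  unfold MinimalModels IsMinAt
  simp only [isModel_iff]

theorem lseries_eq (V : HeightOneSpectrum (𝓞 K) → WeierstrassCurve (𝓞 K)) (s : ℂ) :
    LSeries V s = LL V s := by
  unfold LSeries LL
  refine tprod_congr fun v => ?_
  congr 1
  unfold lf trc dlt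
  have h0 : ((nm v : ℕ) : ℂ) ≠ 0 := by
    have := two_le_nm v
    exact_mod_cast (by omega : nm v ≠ 0)
  have e1 : Nat.card {xy : (𝓞 K ⧸ v.asIdeal) × (𝓞 K ⧸ v.asIdeal) //
      ((V v).map (Ideal.Quotient.mk v.asIdeal)).toAffine.Equation xy.1 xy.2} =
      aff (red v (V v)) := by
    unfold aff red
    refine Nat.card_congr (Equiv.subtypeEquivRight fun xy => ?_)
    rw [WeierstrassCurve.Affine.equation_iff]
  have e2 : ((nm v : ℕ) : ℂ) ^ (1 - 2 * s) = ((nm v : ℕ) : ℂ) * ((nm v : ℕ) : ℂ) ^ (-2 * s) := by
    rw [sub_eq_add_neg, Complex.cpow_add _ _ h0, Complex.cpow_one]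
    congr 2
    ring
  have e3 : (Ideal.absNorm v.asIdeal : ℂ) = ((nm v : ℕ) : ℂ) := rfl
  rw [e1, e2, e3]
  push_cast
  split_ifs with h
  · ring
  · ring

theorem ll_unique {E : WeierstrassCurve K} (hE : E.IsElliptic)
    {V V' : HeightOneSpectrum (𝓞 K) → WeierstrassCurve (𝓞 K)} (hV : ∀ v, IsMinAt E v (V v))
    (hV' : ∀ v, IsMinAt E v (V' v)) (s : ℂ) : LL V s = LL V' s := by
  classical
  have h : ∀ v, lf V s v = lf V' s v := by
    intro v
    obtain ⟨h1, h2⟩ := aff_minimal v hE (hV v) (hV' v)
    have e1 : trc V v = trc V' v := by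
      rw [trc, trc, h1]
    have e2 : dlt V v = dlt V' v := by
      rw [dlt, dlt]
      simp only [h2]
    rw [lf, lf, e1, e2]
  rw [LL, LL]
  simp only [h]

theorem continues_iff {E : WeierstrassCurve K} (hE : E.IsElliptic) (U : Set ℂ) :
    Continues E U ↔ Pool.Agent.R433.MD.Cont E U 1 := by
  unfold Continues Pool.Agent.R433.MD.Cont
  simp only [minimalModels_iff, lseries_eq, pow_one]
  constructor
  · rintro ⟨Λ, h1, h2⟩
    obtain ⟨V, hV⟩ := exists_minimal E hE
    exact ⟨V, hV, Λ, h1, h2 V hV⟩
  · rintro ⟨V, hV, Λ, h1, h2⟩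
    refine ⟨Λ, h1, fun V' hV' s hs => ?_⟩
    rw [h2 s hs, ll_unique hE hV hV' s]

end Aux

section
variable {K L : Type} [Field K] [NumberField K] [Field L] [NumberField L] [Algebra K L]

omit [NumberField K] [NumberField L] in
theorem isPrimitive_of_atom {F : IntermediateField K L} (hF : IsAtom F) : IsPrimitive K F := by
  have h1 : ∀ E : IntermediateField K F, E = ⊥ ∨ E = ⊤ := by
    intro E
    rcases hF.le_iff.1 (IntermediateField.lift_le E) with h | h
    · left
      apply IntermediateField.lift_injective F
      rw [h, IntermediateField.lift_bot]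
    · right
      apply IntermediateField.lift_injective F
      rw [h, IntermediateField.lift_top]
  refine ⟨fun h => hF.1 ?_, h1⟩
  have h2 := congrArg IntermediateField.lift h
  rw [IntermediateField.lift_bot, IntermediateField.lift_top] at h2
  exact h2.symm

end

section Main

open Pool.Agent.H67.PF
open Pool.Agent.R433.MD (fx)

/-- the special fields -/
theorem special_Fk {K L : Type} [Field K] [NumberField K] [Field L] [NumberField L] [Algebra K L]
    [IsGalois K L] {m : ℕ} (h3 : 3 ≤ m) (S : Finset (HeightOneSpectrum (𝓞 K)))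
    (hsplit : ∀ v ∈ S, ∀ w : HeightOneSpectrum (𝓞 L), w.asIdeal.under (𝓞 K) = v.asIdeal →
      ∀ σ : Gal(L/K), σ • w.asIdeal = w.asIdeal → σ = 1)
    (hreal : ∀ ψ : L →+* ℂ, (∀ x : K, (ψ (algebraMap K L x)).im = 0) → ∀ y, (ψ y).im = 0)
    (ρ : Gal(L/K) →* Equiv.Perm (Fin (2 * m))) (hρ : Function.Bijective ρ) (k : Fin m) :
    SpecialExtension m S (Fk ρ k) where
  primitive := isPrimitive_of_atom (atom_Fk ρ hρ.2 (by omega) k)
  degree := by
    by_cases hk : (k : ℕ) = 0
    · exact Or.inl (finrank_Fk_zero ρ hρ.2 (by omega) k hk)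
    · exact Or.inr ⟨k, by omega, k.2, finrank_Fk_pos ρ hρ.2 k hk⟩
  symmetric := ⟨L, inferInstance, inferInstance, inferInstance,
    ⟨MulEquiv.ofBijective ρ hρ⟩, ⟨(Fk ρ k).val⟩⟩
  split := fun v hv => card_primes (Fk ρ k) v (hsplit v hv)
  real := fun ψ hψ y => real_inter (Fk ρ k) hreal ψ hψ y

/-- the relation -/
theorem exists_relation (K : Type) [Field K] [NumberField K] {m : ℕ} (hm : Odd m) (h3 : 3 ≤ m)
    (S : Finset (HeightOneSpectrum (𝓞 K))) :
    ∃ (L : Type) (_ : Field L) (_ : NumberField L) (_ : Algebra K L)
      (F : Fin m → IntermediateField K L), PrimitiveRelation m S F ∧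
        ∀ E : WeierstrassCurve K, E.IsElliptic → Factorization F E ∧ ContinuationDescends F E := by
  classical
  obtain ⟨L, _, _, _, hG, hsplit, hreal, ρ, hρ⟩ := exists_sym K S (n := 2 * m) ⟨m, two_mul m⟩
    (by omega)
  have hinj := Fk_inj (K := K) (L := L) ρ hρ.2
  refine ⟨L, inferInstance, inferInstance, inferInstance, Fk ρ, ⟨hG, ⟨MulEquiv.ofBijective ρ hρ⟩,
    hinj, fun k hk => finrank_Fk_zero ρ hρ.2 (by omega) k hk,
    fun k hk => finrank_Fk_pos ρ hρ.2 k hk, special_Fk h3 S hsplit hreal ρ hρ, fun g => ?_⟩, ?_⟩
  · rw [← relation_Fk ρ hρ.2 hm g]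
    refine Finset.sum_congr rfl fun k _ => ?_
    rw [Pool.Agent.R433.MD.fx_eq_emb]
    rfl
  · intro E hE
    let T : Finset (IntermediateField K L) := Finset.univ.map ⟨Fk ρ, hinj⟩
    let n : IntermediateField K L → ℤ := Function.extend (Fk ρ) sg 0
    have hn : ∀ k, n (Fk ρ k) = sg k := fun k => hinj.extend_apply sg 0 k
    have hsum : ∀ g : Gal(L/K), ∑ F ∈ T, n F * fx F.fixingSubgroup g = ((1 : ℕ) : ℤ) := by
      intro g
      rw [Finset.sum_map, Nat.cast_one, ← relation_Fk ρ hρ.2 hm g]
      refine Finset.sum_congr rfl fun k _ => ?_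
      change n (Fk ρ k) * _ = _
      rw [hn]
      rfl
    constructor
    · obtain ⟨V0, hV0⟩ := Pool.Agent.R433.MD.exists_minimal E hE
      choose W hW using fun F : IntermediateField K L =>
        Pool.Agent.R433.MD.exists_minimal (E.map (algebraMap K F)) inferInstance
      obtain ⟨R, hR, hRL⟩ := Pool.Agent.R433.MD.gal_rel T 1 n hsum E hE V0 hV0 W hW
      refine ⟨R, hR, fun V VF hV hVF s hs => ?_⟩
      obtain ⟨h1, h2⟩ := hRL s hs
      refine ⟨h1, ?_⟩
      rw [minimalModels_iff] at hV
      rw [lseries_eq, ll_unique hE hV hV0]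
      rw [pow_one] at h2
      rw [h2]
      congr 1
      rw [Finset.prod_map]
      refine Finset.prod_congr rfl fun k _ => ?_
      change _ ^ n (Fk ρ k) = _
      rw [hn, lseries_eq, ll_unique inferInstance
        ((minimalModels_iff _ _).1 (hVF k)) (hW (Fk ρ k))]
      rfl
    · intro U h
      rw [continues_iff hE]
      refine Pool.Agent.R433.MD.gal_cont T 1 n hsum E hE U fun F hF => ?_
      obtain ⟨k, -, rfl⟩ := Finset.mem_map.1 hF
      exact (continues_iff inferInstance U).1 (h k)

end Main

/-- **Primitive extensions with symmetric group suffice.** Let `m ≥ 3` be odd.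

1. For every number field `K` and every finite set `S` of primes of `K` there are a Galois extension
`L / K` with group `S_{2m}` and `m` different intermediate fields `F_0, …, F_{m-1}` with these properties.
There are no fields strictly between `K` and `F_k`; `[F_0 : K] = (2m choose m) / 2` and
`[F_k : K] = (2m choose k)` for `1 ≤ k < m`; the primes in `S` and the real places of `K` split completely
in `F_k`. For all elliptic curves `E` over `K`

`L(E/K, s) = R(s) L(E/F_0, s) L(E/F_1, s) L(E/F_2, s)⁻¹ L(E/F_3, s) ⋯ L(E/F_{m-1}, s)⁻¹`, `Re s > 3/2`,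

with a function `R` meromorphic on the plane and different from `0` for `Re s > 3/2`; and for every set
`U` of complex numbers, if the `L(E/F_k, s)` have meromorphic continuations to `U`, then so has
`L(E/K, s)`.

2. Let `E` be an elliptic curve over a number field `K` and let `S` and `U` be given. If `L(E/F, s)` has
a meromorphic continuation to `U` for all special extensions `F / K` (see `SpecialExtension`), then
`L(E/K, s)` has a meromorphic continuation to `U`.

3. Let finite sets `S K` of primes of all number fields `K` be given. If the `L`-series of all elliptic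
curves over all number fields `F` which are special extensions of a number field `K`, for `S K`, have
meromorphic continuations to the plane, then the `L`-series of all elliptic curves over all number
fields have meromorphic continuations to the plane.

4. Three is the least number of fields in such a relation: let `F` run over a finite set of
intermediate fields `F ≠ K` of a finite Galois extension `L / K`, and let `n_F` be integers with
`∑ n_F · embeddings F g = c` for all `g ∈ Gal(L/K)`, `c > 0`. Then `n_F > 0` for at least two of the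
fields and `n_F < 0` for at least one. -/
theorem result :
    (∀ (K : Type) [Field K] [NumberField K] (m : ℕ), Odd m → 3 ≤ m →
      ∀ S : Finset (HeightOneSpectrum (𝓞 K)),
      ∃ (L : Type) (_ : Field L) (_ : NumberField L) (_ : Algebra K L)
        (F : Fin m → IntermediateField K L), PrimitiveRelation m S F ∧
          ∀ E : WeierstrassCurve K, E.IsElliptic →
            Factorization F E ∧ ContinuationDescends F E) ∧
    (∀ (K : Type) [Field K] [NumberField K] (E : WeierstrassCurve K), E.IsElliptic →
      ∀ m : ℕ, Odd m → 3 ≤ m → ∀ (S : Finset (HeightOneSpectrum (𝓞 K))) (U : Set ℂ),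
        ContinuesOverSpecial m S E U → Continues E U) ∧
    (∀ m : ℕ, Odd m → 3 ≤ m →
      ∀ S : ∀ (K : Type) [Field K] [NumberField K], Finset (HeightOneSpectrum (𝓞 K)),
      (∀ (K F : Type) [Field K] [NumberField K] [Field F] [NumberField F] [Algebra K F],
        SpecialExtension m (S K) F → HasseWeilMeromorphic F) →
      ∀ (K : Type) [Field K] [NumberField K], HasseWeilMeromorphic K) ∧
    ∀ (K L : Type) [Field K] [NumberField K] [Field L] [NumberField L] [Algebra K L]
      [IsGalois K L] (T : Finset (IntermediateField K L)) (n : IntermediateField K L → ℤ) (c : ℤ),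
      (∀ F ∈ T, F ≠ ⊥) → 0 < c →
      (∀ g : Gal(L/K), ∑ F ∈ T, n F * (embeddings F g : ℤ) = c) →
      ∃ F ∈ T, ∃ F' ∈ T, ∃ F'' ∈ T, F ≠ F' ∧ 0 < n F ∧ 0 < n F' ∧ n F'' < 0 := by
  have h2 : ∀ (K : Type) [Field K] [NumberField K] (E : WeierstrassCurve K), E.IsElliptic →
      ∀ m : ℕ, Odd m → 3 ≤ m → ∀ (S : Finset (HeightOneSpectrum (𝓞 K))) (U : Set ℂ),
        ContinuesOverSpecial m S E U → Continues E U := by
    intro K _ _ E hE m hm h3 S U h
    obtain ⟨L, _, _, _, F, hF, hE'⟩ := exists_relation K hm h3 S
    exact (hE' E hE).2 U fun k => h (F k) (hF.special k)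
  refine ⟨fun K _ _ m hm h3 S => exists_relation K hm h3 S, h2, ?_, ?_⟩
  · intro m hm h3 S h K _ _ E hE
    exact h2 K E hE m hm h3 (S K) Set.univ fun F _ _ _ hF => h K F hF _ inferInstance
  · intro K L _ _ _ _ _ _ T n c hT hc h
    refine Pool.Agent.H67.PF.three_pos T (fun F => F.fixingSubgroup) ?_ n c hc ?_
    · intro F hF htop
      apply hT F hF
      rw [← IsGalois.fixedField_fixingSubgroup F, htop, IsGalois.fixedField_top]
    · intro g
      rw [← h g]
      refine Finset.sum_congr rfl fun F _ => ?_
      rw [Pool.Agent.R433.MD.fx_eq_emb]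
      rfl

end Pool.Agent.Results.MP_0d9be2_nt.PrimitiveFields
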