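import Pool.Agent.H2.L.R_pool_sql_team_seeded_843ab51a.V1167.GL.EC
import Pool.Agent.H2.SM.Main

/-!
# Meromorphic continuation of `L(E, s)`: one arithmetic progression, and one sign, are enough

Let `E` be an elliptic curve over a number field `K`, let `t_{v,k}` be the sum of the `k`-th powers of the reciprocal
roots of the local polynomial at the prime `v` of `K`, and for `A ≥ 0`, `T > 0`

`G_A(T) = (4πT)^{-1/2} ∑_{v, k ≥ 1} t_{v,k} (log N v) (N v)^{kA} exp(-(k log N v)² / (4T))`.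

It is known (library result `MP_0d9be2_nt.GaussianPrimePowers`) that `L(E, s)` continues meromorphically to the sector
`|Im s| < Re s + A` with the divisor `∑ m(β) [β]` if and only if `g(T) = G_A(T) + ∑_β m(β) exp((β + A)² T)` is
`O(exp(ε T))` for every `ε > 0`, as the real number `T` tends to infinity.

Here: let `h > 0`, `2 (σ₀ + A)² h < π` (for instance `σ₀ = 4`, `h = (A + 4)^{-2}`).

(1) It suffices to have this for the numbers `T = h, 2h, 3h, …`.

(2) It suffices to have ONE of the two bounds `g(kh) ≤ C exp(ε k h)`, `g(kh) ≥ -C exp(ε k h)`, `k = 1, 2, …`, if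
`L(E, s)` continues along the REAL axis to `(-A, ∞)` with this divisor.

(3) The meromorphic continuation of `L(E, s)` to the plane (the question) is equivalent to such bounds for arbitrarily
large `A`, with one such `h` for each; so it is a property of a double sequence of numbers
`G_A(k (A + 4)^{-2})`, `A, k = 1, 2, …`.

The proof of (1): by Poisson summation the generating function `h ∑_k g(kh) exp(-v k h)` is the sum of the translates
of the Laplace transform of `g` by `2πi n / h`; outside a parabola this transform is an explicit convergent series in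
the prime powers, and the other translates of the parabola do not meet it, if `2 (σ₀ + A)² h < π`; so the transform of
`g` is holomorphic in the right half plane. The proof of (2): Landau's theorem for the generating function.
-/

set_option autoImplicit false

namespace Pool.Agent.Results.MP_0d9be2_nt.SampledOneSidedLaw

open Filter Topology Set NumberField IsDedekindDomain

variable {K : Type} [Field K] [NumberField K]

/-- The norm of `v`. -/
noncomputable def nrm (v : HeightOneSpectrum (𝓞 K)) : ℕ := Ideal.absNorm v.asIdeal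

/-- The local polynomial `P_v` (Mathlib's, with the complete local ring at `v`). -/
noncomputable def locPoly (E : WeierstrassCurve K) (v : HeightOneSpectrum (𝓞 K)) : Polynomial ℤ :=
  (E.baseChange (v.adicCompletion K)).localPolynomial (v.adicCompletionIntegers K)

/-- The power sums `t_{v,k}` of the reciprocal roots of `P_v`, by Newton's recursion. -/
noncomputable def tr (E : WeierstrassCurve K) (v : HeightOneSpectrum (𝓞 K)) : ℕ → ℤ
  | 0 => 2
  | 1 => -(locPoly E v).coeff 1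
  | (k + 2) => -(locPoly E v).coeff 1 * tr E v (k + 1) - (locPoly E v).coeff 2 * tr E v k

/-- The sector `|Im s| < Re s + A`. -/
def Sector (A : ℝ) : Set ℂ := {s | |s.im| < s.re + A}

/-- The Gaussian sum `G_A(T)`. -/
noncomputable def gauss (E : WeierstrassCurve K) (A T : ℝ) : ℝ :=
  (Real.sqrt (4 * Real.pi * T))⁻¹ * ∑' q : HeightOneSpectrum (𝓞 K) × ℕ, (tr E q.1 (q.2 + 1) : ℝ) *
    (Real.log (nrm q.1) * (nrm q.1 : ℝ) ^ (A * (q.2 + 1)) *
      Real.exp (-(((q.2 + 1) * Real.log (nrm q.1)) ^ 2 / (4 * T))))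

/-- The divisor `∑ m(β) [β]`, `β ∈ Z`, lies in the sector, and in `Re s ≤ σ`. -/
def InSector (σ A : ℝ) (Z : Finset ℂ) : Prop := ∀ β ∈ Z, β ∈ Sector A ∧ β.re ≤ σ

/-- The divisor `∑ m(β) [β]`, `β ∈ Z`, is symmetric with respect to the real axis. -/
def Symmetric (Z : Finset ℂ) (m : ℂ → ℤ) : Prop :=
  ∀ β ∈ Z, (starRingEnd ℂ) β ∈ Z ∧ m ((starRingEnd ℂ) β) = m β

/-- The corrected sum `G_A(T) + ∑_β m(β) exp((β + A)² T)`. -/
noncomputable def corr (E : WeierstrassCurve K) (A : ℝ) (Z : Finset ℂ) (m : ℂ → ℤ) (T : ℝ) : ℂ :=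
  (gauss E A T : ℂ) + ∑ β ∈ Z, (m β : ℂ) * Complex.exp ((β + A) ^ 2 * T)

/-- For `T = h k`, `k` a natural number, `k → ∞`: the corrected sum is `O(exp(ε T))` for every `ε > 0`. -/
def Sampled (E : WeierstrassCurve K) (A h : ℝ) (Z : Finset ℂ) (m : ℂ → ℤ) : Prop :=
  ∀ ε : ℝ, 0 < ε → ∃ C : ℝ, ∀ᶠ k : ℕ in atTop,
    ‖corr E A Z m (h * k)‖ ≤ C * Real.exp (ε * (h * k))

/-- The same, but only the one-sided bound `s Re(corrected sum) ≤ C exp(ε T)` (`s = 1`: upper bound, `s = -1`: lower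
bound). -/
def OneSided (s : ℝ) (E : WeierstrassCurve K) (A h : ℝ) (Z : Finset ℂ) (m : ℂ → ℤ) : Prop :=
  ∀ ε : ℝ, 0 < ε → ∃ C : ℝ, ∀ᶠ k : ℕ in atTop,
    s * (corr E A Z m (h * k)).re ≤ C * Real.exp (ε * (h * k))

/-- `L(E, s)` has a meromorphic continuation to the union of the half plane `Re s > σ` and the sector with the divisor
`∑ m(β) [β]`, `β ∈ Z`: it is `H(s) ∏_{β ∈ Z} (s - β)^{m(β)}` with a function `H`, holomorphic and without zeros in the
union. -/
def ContinuesWith (E : WeierstrassCurve K) (σ A : ℝ) (Z : Finset ℂ) (m : ℂ → ℤ) : Prop :=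
  ∃ H : ℂ → ℂ, (∀ s : ℂ, s ∈ Sector A ∨ σ < s.re → DifferentiableAt ℂ H s ∧ H s ≠ 0) ∧
    ∀ s : ℂ, σ < s.re → E.LSeries s = H s * ∏ β ∈ Z, (s - β) ^ m β

/-- `L(E, s)` continues along the real axis to the half line `s > -A`, with the divisor `∑ m(β) [β]`, `β ∈ Z` real: it
is `H(s) ∏_{β ∈ Z} (s - β)^{m(β)}` with a function `H`, holomorphic near each real point `r > -A` (in a disc
depending on `r`) and with `H(r) ≠ 0`. -/
def ContinuesAlongReals (E : WeierstrassCurve K) (σ A : ℝ) (Z : Finset ℂ) (m : ℂ → ℤ) : Prop :=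
  ∃ H : ℂ → ℂ, (∀ r : ℝ, -A < r → AnalyticAt ℂ H r ∧ H r ≠ 0) ∧
    ∀ r : ℝ, σ < r → E.LSeries r = H r * ∏ β ∈ Z, ((r : ℂ) - β) ^ m β

/-- `f` is a meromorphic continuation of `L(E, s)` to `ℂ`. -/
def IsContinuation (E : WeierstrassCurve K) (f : ℂ → ℂ) : Prop :=
  MeromorphicOn f univ ∧ ∃ σ : ℝ, ∀ s : ℂ, σ < s.re → f s = E.LSeries s

open Pool.Agent.V1167.GL Pool.Agent.V11291.GS Pool.Agent.H2.SM

lemma tr_eq (E : WeierstrassCurve K) (v : HeightOneSpectrum (𝓞 K)) (k : ℕ) :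
    tr E v k = pws (Pool.Agent.W189.NF.aV E v) (Pool.Agent.W189.NF.eV E v) k := by
  have h1 : (locPoly E v).coeff 1 = -Pool.Agent.W189.NF.aV E v := by
    unfold locPoly Pool.Agent.W189.NF.aV
    rw [Pool.Agent.W189.NF.localPolynomial_eq, Polynomial.coeff_add, Polynomial.coeff_sub,
      Polynomial.coeff_C_mul, Polynomial.coeff_C_mul, Polynomial.coeff_X_pow, Polynomial.coeff_X,
      Polynomial.coeff_one]
    norm_num
  have h2 : (locPoly E v).coeff 2 = Pool.Agent.W189.NF.eV E v := by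
    unfold locPoly Pool.Agent.W189.NF.eV
    rw [Pool.Agent.W189.NF.localPolynomial_eq, Polynomial.coeff_add, Polynomial.coeff_sub,
      Polynomial.coeff_C_mul, Polynomial.coeff_C_mul, Polynomial.coeff_X_pow, Polynomial.coeff_X,
      Polynomial.coeff_one]
    norm_num
  induction k using Nat.twoStepInduction with
  | zero => simp [tr, pws]
  | one => simp [tr, pws, h1]
  | more k e1 e2 => rw [tr, pws, e1, e2, h1, h2, neg_neg]

lemma gauss_eq (E : WeierstrassCurve K) (A T : ℝ) : gauss E A T = gp E A T := by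
  unfold gauss gp
  simp only [tr_eq]
  rfl

lemma corr_eq (E : WeierstrassCurve K) (A : ℝ) (Z : Finset ℂ) (m : ℂ → ℤ) (T : ℝ) :
    corr E A Z m T = co (xx fun v : HeightOneSpectrum (𝓞 K) => nn v) (cc (rts E)) A Z m T := by
  unfold corr co
  rw [gauss_eq, gp_eq]

lemma sampled_iff (E : WeierstrassCurve K) (A h : ℝ) (Z : Finset ℂ) (m : ℂ → ℤ) :
    Sampled E A h Z m ↔ DEx (xx fun v : HeightOneSpectrum (𝓞 K) => nn v) (cc (rts E)) A h Z m := by
  unfold Sampled DEx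
  simp only [corr_eq]

lemma oneSided_iff (s : ℝ) (E : WeierstrassCurve K) (A h : ℝ) (Z : Finset ℂ) (m : ℂ → ℤ) :
    OneSided s E A h Z m ↔
      OEx s (xx fun v : HeightOneSpectrum (𝓞 K) => nn v) (cc (rts E)) A h Z m := by
  unfold OneSided OEx
  simp only [corr_eq]

lemma G_real (E : WeierstrassCurve K) (A t : ℝ) :
    (G (xx fun v : HeightOneSpectrum (𝓞 K) => nn v)
      (cA (xx fun v : HeightOneSpectrum (𝓞 K) => nn v) (cc (rts E)) A) t).im = 0 := by
  rw [← gp_eq, Complex.ofReal_im]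

lemma cc_real (E : WeierstrassCurve K) (q : HeightOneSpectrum (𝓞 K) × ℕ) :
    (cc (rts E) q).im = 0 := by
  unfold cc
  rw [(rts_spec E q.1).2.1]
  have h : ((pws (Pool.Agent.W189.NF.aV E q.1) (Pool.Agent.W189.NF.eV E q.1) (q.2 + 1) : ℂ)) /
      ((q.2 : ℂ) + 1) = (((pws (Pool.Agent.W189.NF.aV E q.1) (Pool.Agent.W189.NF.eV E q.1)
        (q.2 + 1) : ℝ) / ((q.2 : ℝ) + 1) : ℝ) : ℂ) := by
    push_cast
    rfl
  rw [h, Complex.ofReal_im]

/-- **Theorem.** Let `E` be an elliptic curve over a number field `K`, and `σ₀ > 3`.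

(1) Let `A ≥ 0`, `h > 0`, `2 (σ₀ + A)² h < π`, and let `∑ m(β) [β]`, `β ∈ Z`, be a finite divisor in the sector
`|Im s| < Re s + A`, `Re s ≤ σ₀`. Then `L(E, s)` has a meromorphic continuation to the union of the sector and
`Re s > σ₀` with this divisor if and only if the corrected sum at `T = h, 2h, 3h, …` is `O(exp(ε T))` for every
`ε > 0`. If the divisor is symmetric: if and only if `L(E, s)` continues along the real axis to `(-A, ∞)` with this
divisor and the corrected sum at `T = h, 2h, 3h, …` is at most `C exp(ε T)`; the same with at least `-C exp(ε T)`.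

(2) `L(E, s)` has a meromorphic continuation to `ℂ` if and only if for arbitrarily large `A` there are such an `h` and
such a divisor with `corrected sum = O(exp(ε T))` at `T = h, 2h, 3h, …`.

(3) The same with the continuation along the real axis and one of the two one-sided bounds.

(4) If `f` is a meromorphic continuation of `L(E, s)` to `ℂ`, then for every `A ≥ 0` the set `Z` of the zeros and
poles of `f` in the sector is finite, contained in `Re s ≤ σ₀` and symmetric, and for all `h` as in (1) the bounds in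
(1) hold with `m(β)` the order of `f` at `β`, `β ∈ Z`. -/
theorem result (E : WeierstrassCurve K) [E.IsElliptic] (σ₀ : ℝ) (hσ : 3 < σ₀) :
    (∀ A h : ℝ, 0 ≤ A → 0 < h → 2 * (σ₀ + A) ^ 2 * h < Real.pi →
      ∀ (Z : Finset ℂ) (m : ℂ → ℤ), InSector σ₀ A Z →
        (ContinuesWith E σ₀ A Z m ↔ Sampled E A h Z m) ∧
        (Symmetric Z m → ∀ s : ℝ, |s| = 1 → (ContinuesWith E σ₀ A Z m ↔
          ContinuesAlongReals E σ₀ A Z m ∧ OneSided s E A h Z m))) ∧
    ((∃ f : ℂ → ℂ, IsContinuation E f) ↔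
      ∀ A₀ : ℝ, ∃ A h : ℝ, A₀ ≤ A ∧ 0 ≤ A ∧ 0 < h ∧ 2 * (σ₀ + A) ^ 2 * h < Real.pi ∧
        ∃ (Z : Finset ℂ) (m : ℂ → ℤ), InSector σ₀ A Z ∧ Sampled E A h Z m) ∧
    (∀ s : ℝ, |s| = 1 → ((∃ f : ℂ → ℂ, IsContinuation E f) ↔
      ∀ A₀ : ℝ, ∃ A h : ℝ, A₀ ≤ A ∧ 0 ≤ A ∧ 0 < h ∧ 2 * (σ₀ + A) ^ 2 * h < Real.pi ∧
        ∃ (Z : Finset ℂ) (m : ℂ → ℤ), InSector σ₀ A Z ∧ Symmetric Z m ∧
          ContinuesAlongReals E σ₀ A Z m ∧ OneSided s E A h Z m)) ∧
    ∀ f : ℂ → ℂ, IsContinuation E f → ∀ A : ℝ, 0 ≤ A →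
      ∃ Z : Finset ℂ, (∀ β : ℂ, β ∈ Z ↔ β ∈ Sector A ∧ meromorphicOrderAt f β ≠ 0) ∧
        InSector σ₀ A Z ∧ Symmetric Z (fun β => (meromorphicOrderAt f β).untop₀) ∧
        ContinuesAlongReals E σ₀ A Z (fun β => (meromorphicOrderAt f β).untop₀) ∧
        ∀ h : ℝ, 0 < h → 2 * (σ₀ + A) ^ 2 * h < Real.pi →
          Sampled E A h Z fun β => (meromorphicOrderAt f β).untop₀ := by
  have hc := cnt (K := K)
  have P := ec_ep E hσ
  set x := xx fun v : HeightOneSpectrum (𝓞 K) => nn v with hx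
  set L : ℂ → ℂ := fun s => Complex.exp (ll x (cc (rts E)) s) with hLdef
  have hL : ∀ s : ℂ, σ₀ < s.re → L s = E.LSeries s := fun s hs => ec_L E hσ hs.le
  have hcw : ∀ (A : ℝ) (Z : Finset ℂ) (m : ℂ → ℤ), ContinuesWith E σ₀ A Z m ↔ Cw L σ₀ A Z m := by
    intro A Z m
    constructor
    · rintro ⟨H, h1, h2⟩
      exact ⟨H, h1, fun s hs => by rw [← h2 s hs]; exact hL s hs⟩
    · rintro ⟨H, h1, h2⟩
      exact ⟨H, h1, fun s hs => by rw [← hL s hs]; exact h2 s hs⟩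
  have hrw : ∀ (A : ℝ) (Z : Finset ℂ) (m : ℂ → ℤ),
      ContinuesAlongReals E σ₀ A Z m ↔ Rw L σ₀ A Z m := by
    intro A Z m
    have hL' : ∀ r : ℝ, σ₀ < r → L r = E.LSeries r := fun r hr => hL r (by rwa [Complex.ofReal_re])
    constructor
    · rintro ⟨H, h1, h2⟩
      exact ⟨H, h1, fun s hs => by rw [← h2 s hs]; exact hL' s hs⟩
    · rintro ⟨H, h1, h2⟩
      exact ⟨H, h1, fun s hs => by rw [← hL' s hs]; exact h2 s hs⟩
  have h1 : ∀ A h : ℝ, 0 ≤ A → 0 < h → 2 * (σ₀ + A) ^ 2 * h < Real.pi →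
      ∀ (Z : Finset ℂ) (m : ℂ → ℤ), InSector σ₀ A Z →
        (ContinuesWith E σ₀ A Z m ↔ Sampled E A h Z m) ∧
        (Symmetric Z m → ∀ s : ℝ, |s| = 1 → (ContinuesWith E σ₀ A Z m ↔
          ContinuesAlongReals E σ₀ A Z m ∧ OneSided s E A h Z m)) := by
    intro A h hA hh hhσ Z m hZ
    refine ⟨?_, fun hZc s hs => ?_⟩
    · rw [hcw, sampled_iff]
      exact samp_crit P.gd hA m hZ hh hhσ
    · rw [hcw, hrw, oneSided_iff]
      exact one_crit P.gd hA m (G_real E A) hZ hZc hh hhσ hs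
  have h4 : ∀ f : ℂ → ℂ, IsContinuation E f → ∀ A : ℝ, 0 ≤ A →
      ∃ Z : Finset ℂ, (∀ β : ℂ, β ∈ Z ↔ β ∈ Sector A ∧ meromorphicOrderAt f β ≠ 0) ∧
        InSector σ₀ A Z ∧ Symmetric Z (fun β => (meromorphicOrderAt f β).untop₀) ∧
        ContinuesAlongReals E σ₀ A Z (fun β => (meromorphicOrderAt f β).untop₀) ∧
        ∀ h : ℝ, 0 < h → 2 * (σ₀ + A) ^ 2 * h < Real.pi →
          Sampled E A h Z fun β => (meromorphicOrderAt f β).untop₀ := by
    rintro f ⟨g1, σ, g2⟩ A hA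
    have g3 : ∀ s : ℂ, max σ σ₀ < s.re → f s = Complex.exp (ll x (cc (rts E)) s) := fun s hs => by
      rw [g2 s ((le_max_left _ _).trans_lt hs)]
      exact (hL s ((le_max_right _ _).trans_lt hs)).symm
    obtain ⟨Z, g4, g5, g6⟩ := P.gd.plane_ex g1 g3 hA
    have hsym : ∀ β, meromorphicOrderAt f ((starRingEnd ℂ) β) = meromorphicOrderAt f β :=
      order_sym (cc_real E) g1 g3
    have hcwf := (P.gd.crit hA _ g5).2 g6
    refine ⟨Z, g4, g5, fun β hβ => ⟨?_, ?_⟩, (hrw _ _ _).2 (rw_of P.gd hcwf),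
      fun h hh hhσ => ?_⟩
    · rw [g4] at hβ ⊢
      refine ⟨?_, by rw [hsym]; exact hβ.2⟩
      have := hβ.1
      change |((starRingEnd ℂ) β).im| < ((starRingEnd ℂ) β).re + A
      rw [Complex.conj_im, Complex.conj_re, abs_neg]
      exact this
    · simp only [hsym]
    · rw [sampled_iff]
      exact (samp_crit P.gd hA _ g5 hh hhσ).1 hcwf
  have hback : (∀ A₀ : ℝ, ∃ A : ℝ, A₀ ≤ A ∧ 0 ≤ A ∧
      ∃ (Z : Finset ℂ) (m : ℂ → ℤ), InSector σ₀ A Z ∧ ContinuesWith E σ₀ A Z m) →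
      ∃ f : ℂ → ℂ, IsContinuation E f := by
    intro h
    obtain ⟨f, k1, k2⟩ := P.gd.plane fun A₀ => by
      obtain ⟨A, k1, k2, Z, m, k3, k4⟩ := h A₀
      exact ⟨A, k1, k2, Z, m, k3, (P.gd.crit k2 m k3).1 ((hcw _ _ _).1 k4)⟩
    exact ⟨f, k1, σ₀, fun s hs => by rw [k2 s hs]; exact hL s hs⟩
  have hstep : ∀ A : ℝ, 0 ≤ A → 0 < ((σ₀ + A) ^ 2)⁻¹ ∧
      2 * (σ₀ + A) ^ 2 * ((σ₀ + A) ^ 2)⁻¹ < Real.pi := by
    intro A hA
    have h5 : 0 < (σ₀ + A) ^ 2 := by positivity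
    refine ⟨inv_pos.2 h5, ?_⟩
    rw [mul_assoc, mul_inv_cancel₀ h5.ne', mul_one]
    linarith [Real.pi_gt_three]
  refine ⟨h1, ⟨?_, fun h => hback fun A₀ => ?_⟩, fun s hs => ⟨?_, fun h => hback fun A₀ => ?_⟩, h4⟩
  · rintro ⟨f, hf⟩ A₀
    obtain ⟨Z, -, k2, k3, -, k4⟩ := h4 f hf (max A₀ 0) (le_max_right _ _)
    obtain ⟨k5, k6⟩ := hstep (max A₀ 0) (le_max_right _ _)
    exact ⟨max A₀ 0, _, le_max_left _ _, le_max_right _ _, k5, k6, Z, _, k2, k4 _ k5 k6⟩
  · obtain ⟨A, h, k1, k2, k3, k4, Z, m, k5, k6⟩ := h A₀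
    exact ⟨A, k1, k2, Z, m, k5, ((h1 A h k2 k3 k4 Z m k5).1).2 k6⟩
  · rintro ⟨f, hf⟩ A₀
    obtain ⟨Z, -, k2, k3, k7, k4⟩ := h4 f hf (max A₀ 0) (le_max_right _ _)
    obtain ⟨k5, k6⟩ := hstep (max A₀ 0) (le_max_right _ _)
    have k8 := h1 (max A₀ 0) _ (le_max_right _ _) k5 k6 Z
      (fun β => (meromorphicOrderAt f β).untop₀) k2
    exact ⟨max A₀ 0, _, le_max_left _ _, le_max_right _ _, k5, k6, Z, _, k2, k3,
      (k8.2 k3 s hs).1 (k8.1.2 (k4 _ k5 k6))⟩
  · obtain ⟨A, h, k1, k2, k3, k4, Z, m, k5, k6, k7⟩ := h A₀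
    exact ⟨A, k1, k2, Z, m, k5, ((h1 A h k2 k3 k4 Z m k5).2 k6 s hs).2 k7⟩

end Pool.Agent.Results.MP_0d9be2_nt.SampledOneSidedLaw
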