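import Pool.Agent.H21.RF.Curve

/-!
# Meromorphic continuation of the L-series of one elliptic curve relative to others

`E_i`, `i ∈ ι`, are finitely many elliptic curves `y² = x³ + a_i x + b_i` over number fields `K_i` (the fields may be
different and arbitrary). `L(E_i, s) = ∏_v (1 - c_v q_v^{-s} + e_v q_v^{-2s})⁻¹` is the COMPLETE `L`-series, for
`Re s > 3/2`, and for `ρ' > ρ > 1`

`S_i(Y) = - ∑ w_{1/ρ}(k log q_v / log Y) (α_v^k + β_v^k) / (k q_v^k)`

is the FINITE sum over the pairs `(v, k)` with `q_v^k ≤ exp((log Y)^ρ')`, where `w_α` is the Mittag-Leffler weight. No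
continuation of any of the `L`-series is assumed.

1. (products with real exponents) For real `w_i` of any signs, `ρ' > ρ > 1` and `θ ≥ 0` the product
   `∏ L(E_i, s)^{w_i}` has a holomorphic continuation without zeros to the union of `H(ρ, θ)` and `{Re s > 3/2}`,
   `H(ρ, θ) = {|arg (s - 1)| < π / (2ρ), Re (s - 1)^ρ > θ}`, if and only if for all `ε > 0`
   `|∑ w_i S_i(Y)| ≤ exp ((θ + ε) (log Y)^ρ)` for all large `Y`. If the product continues to a neighbourhood of the real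
   interval `(1, 3/2]`, the upper bound `∑ w_i S_i(Y) ≤ exp ((θ + ε) (log Y)^ρ)` is sufficient.

2. (transport) Let `m_i` be integers, `m_j = ± 1`, `κ ≥ 0`, and let the `L(E_i, s)`, `i ≠ j`, have meromorphic
   continuations to `Re s > 1 + κ`. Then `L(E_j, s)` has a meromorphic continuation to `Re s > 1 + κ` with
   `∑ m_i ord_s L(E_i, s) = 0` for all `s` there, if and only if for all `ρ > 1` and `ε > 0`
   `|∑ m_i S_i(Y)| ≤ exp ((κ^ρ + ε) (log Y)^ρ)` for all large `Y`.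

3. (cancellation of orders) If all the `L(E_i, s)` have meromorphic continuations to `Re s > 1 + κ`, then for REAL
   `w_i` the bound `|∑ w_i S_i(Y)| ≤ exp ((κ^ρ + ε) (log Y)^ρ)` (all `ρ > 1`, `ε > 0`, large `Y`) holds if and only if
   `∑ w_i ord_s L(E_i, s) = 0` for all `s` with `Re s > 1 + κ`.

For two curves, `m = (1, -1)`: if `L(E', s)` is meromorphic for `Re s > 1 + κ` (for instance if `K'` is totally real or
a CM field), then `L(E, s)` has a meromorphic continuation to `Re s > 1 + κ` with the same zeros and poles if and only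
if `|S_E(Y) - S_{E'}(Y)| ≤ exp ((κ^ρ + ε) (log Y)^ρ)`. The zeros need not be known, and there may be infinitely many.
By 3 the Hasse-Weil conjecture implies that the real vectors `w` for which the bound holds form a subspace defined over
`ℚ`; and one bound with weights which are linearly independent over `ℚ` excludes zeros and poles of all the `L(E_i, s)`.
The earlier result for one curve (library, GrowthExponents) is the case without zeros.

Proof. `∑ w_i log L(E_i, s)` is a Dirichlet series over the prime powers of all the fields, and `∑ w_i S_i` is, up to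
`o(1)`, its Mittag-Leffler mean `f(y)`, `y = (log Y)^ρ`. The Laplace transform of `y f(y)` is the derivative of `g(v)/v`,
where `g` is the series at `s = 1 + v^{1/ρ}`; so the bound is equivalent to the continuation of `g` to `Re v > θ`. In 3
the combination of the logarithmic derivatives has the residues `∑ w_i ord_s`.
-/

set_option autoImplicit false

open IsDedekindDomain NumberField Filter Topology

namespace Pool.Agent.Results.MP_0d9be2_nt.SeveralCurvesGrowth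

section one

variable {K : Type} [Field K] [NumberField K]

/-- The prime `v` does not divide `6 (4 a³ + 27 b²)`. -/
def Good (a b : 𝓞 K) (v : HeightOneSpectrum (𝓞 K)) : Prop :=
  6 * (4 * a ^ 3 + 27 * b ^ 2) ∉ v.asIdeal

/-- `q_v`, the number of elements of the residue field. -/
noncomputable def q (v : HeightOneSpectrum (𝓞 K)) : ℕ := Ideal.absNorm v.asIdeal

/-- `N_v`, the number of affine points of `y² = x³ + a x + b` modulo `v`. -/
noncomputable def points (a b : 𝓞 K) (v : HeightOneSpectrum (𝓞 K)) : ℕ :=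
  Nat.card {P : (𝓞 K ⧸ v.asIdeal) × (𝓞 K ⧸ v.asIdeal) //
    P.2 ^ 2 = P.1 ^ 3 + Ideal.Quotient.mk v.asIdeal a * P.1 + Ideal.Quotient.mk v.asIdeal b}

/-- The coefficients of the local polynomials `1 - c_v X + e_v X²`: `c_v = q_v - N_v`, `e_v = q_v` for
`v ∤ 6 (4 a³ + 27 b²)`; for the other `v` the reciprocal roots have absolute value at most `√q_v`. -/
def IsLocalData (a b : 𝓞 K) (c e : HeightOneSpectrum (𝓞 K) → ℤ) : Prop :=
  (∀ v, Good a b v → c v = (q v : ℤ) - points a b v ∧ e v = q v) ∧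
  ∀ v, ¬Good a b v → ∀ z : ℂ, z ^ 2 - c v * z + e v = 0 → ‖z‖ ≤ √(q v : ℝ)

/-- The power sums `α ^ n + β ^ n`, where `1 - c X + e X² = (1 - α X) (1 - β X)`, by the recursion. -/
def powerSum (c e : ℤ) : ℕ → ℤ
  | 0 => 2
  | 1 => c
  | n + 2 => c * powerSum c e (n + 1) - e * powerSum c e n

/-- The Mittag-Leffler weight `w_α(u) = (2π)⁻¹ ∫ Re (exp (z - u z^α) / z) dt`, `z = 1 + it`. -/
noncomputable def weight (α u : ℝ) : ℝ :=
  (2 * Real.pi)⁻¹ * ∫ t : ℝ, (Complex.exp ((1 + t * Complex.I) -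
    u * (1 + t * Complex.I) ^ (α : ℂ)) / (1 + t * Complex.I)).re

/-- The pairs `(v, k)`, `k = x.2 + 1`, with `q_v ^ k ≤ exp((log Y)^ρ')`. -/
def pairs (K : Type) [Field K] [NumberField K] (ρ' Y : ℝ) : Set (HeightOneSpectrum (𝓞 K) × ℕ) :=
  {x | (q x.1 : ℝ) ^ (x.2 + 1) ≤ Real.exp (Real.log Y ^ ρ')}

/-- `S_{ρ,ρ'}(Y)`: minus the sum over the finite set `pairs`, with `k = x.2 + 1`. -/
noncomputable def S (c e : HeightOneSpectrum (𝓞 K) → ℤ) (ρ ρ' Y : ℝ) : ℝ :=
  -∑ᶠ x ∈ pairs K ρ' Y, weight ρ⁻¹ (((x.2 : ℝ) + 1) * Real.log (q x.1) / Real.log Y) *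
    (powerSum (c x.1) (e x.1) (x.2 + 1) / (((x.2 : ℝ) + 1) * (q x.1 : ℝ) ^ (x.2 + 1)))

/-- `G` is the `L`-series for `Re s > 3/2`. -/
def IsLSeries (c e : HeightOneSpectrum (𝓞 K) → ℤ) (G : ℂ → ℂ) : Prop :=
  ∀ s : ℂ, 3 / 2 < s.re → HasProd (fun v : HeightOneSpectrum (𝓞 K) =>
    (1 - c v * (q v : ℂ) ^ (-s) + e v * ((q v : ℂ) ^ (-s)) ^ 2)⁻¹) (G s)

/-- The logarithm `∑ (α_v^k + β_v^k) / (k q_v^{ks})` of the `L`-series, over all `v` and `k = x.2 + 1`. -/
noncomputable def logL (c e : HeightOneSpectrum (𝓞 K) → ℤ) (s : ℂ) : ℂ :=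
  ∑' x : HeightOneSpectrum (𝓞 K) × ℕ, (powerSum (c x.1) (e x.1) (x.2 + 1) : ℂ) / ((x.2 : ℂ) + 1) *
    ((q x.1 : ℂ) ^ (-s)) ^ (x.2 + 1)

end one

/-- `s` lies in `H(ρ, θ)`: `|arg (s - 1)| < π / (2ρ)`, `s ≠ 1`, and `Re (s - 1)^ρ > θ`. -/
def InH (ρ θ : ℝ) (s : ℂ) : Prop :=
  s ≠ 1 ∧ |Complex.arg (s - 1)| < Real.pi / (2 * ρ) ∧ θ < ((s - 1) ^ (ρ : ℂ)).re

/-- `F` is meromorphic for `Re s > 1 + κ` and equal to `L` for `Re s > 3/2`. -/
def IsMeromorphicContinuation (κ : ℝ) (L F : ℂ → ℂ) : Prop :=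
  (∀ s : ℂ, 3 / 2 < s.re → F s = L s) ∧ ∀ s : ℂ, 1 + κ < s.re → MeromorphicAt F s

/-- The order of the meromorphic function `F` at `s` (negative at a pole). -/
noncomputable def ord (F : ℂ → ℂ) (s : ℂ) : ℤ := (meromorphicOrderAt F s).untop₀

section fam

variable {ι : Type} [Fintype ι] {K : ι → Type} [∀ i, Field (K i)] [∀ i, NumberField (K i)]

/-- `Ψ` is the product of the `L(E_i, s) ^ {w_i}` for `Re s > 3/2`. -/
def IsPowerProduct (c e : ∀ i, HeightOneSpectrum (𝓞 (K i)) → ℤ) (w : ι → ℝ) (Ψ : ℂ → ℂ) : Prop :=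
  ∀ s : ℂ, 3 / 2 < s.re → Ψ s = Complex.exp (∑ i, (w i : ℂ) * logL (c i) (e i) s)

/-- The product of the `L(E_i, s) ^ {w_i}` has a holomorphic continuation without zeros to the union of the set
`{s | P s}` and the half plane `Re s > 3/2`. -/
def ZeroFree (c e : ∀ i, HeightOneSpectrum (𝓞 (K i)) → ℤ) (w : ι → ℝ) (P : ℂ → Prop) : Prop :=
  ∃ G : ℂ → ℂ, IsPowerProduct c e w G ∧
    ∀ s : ℂ, P s ∨ 3 / 2 < s.re → DifferentiableAt ℂ G s ∧ G s ≠ 0

end fam

/-! ### Translation -/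

section one

variable {K : Type} [Field K] [NumberField K]

theorem ps_eq (c e : ℤ) (n : ℕ) : Pool.Agent.X287.Kit.ps c e n = powerSum c e n := by
  induction n using Nat.twoStepInduction with
  | zero => simp [Pool.Agent.X287.Kit.ps, powerSum]
  | one => simp [Pool.Agent.X287.Kit.ps, powerSum]
  | more n ih1 ih2 =>
    simp only [Pool.Agent.X287.Kit.ps, powerSum]
    rw [ih1, ih2]
    push_cast
    ring

theorem S_eq (c e : HeightOneSpectrum (𝓞 K) → ℤ) (ρ ρ' Y : ℝ) : S c e ρ ρ' Y =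
    -Pool.Agent.TH942.ES.StE (Pool.Agent.H21.RF.NN K) (Pool.Agent.H21.RF.AA c e) ρ ρ' Y := by
  unfold S Pool.Agent.TH942.ES.StE
  congr 1
  refine finsum_congr fun x => ?_
  refine finsum_congr_Prop rfl fun _ => ?_
  have e1 : weight = Pool.Agent.TH942.SL.wml := rfl
  rw [e1]
  congr 1
  have h := Pool.Agent.X287.Kit.full_cP (c := c) (e := e) (c₀ := 1) x
  refine Eq.trans ?_ h.symm
  rw [ps_eq, mul_one]
  congr 2
  rw [← Real.rpow_natCast]
  push_cast
  rfl

theorem logL_eq (c e : HeightOneSpectrum (𝓞 K) → ℤ) (s : ℂ) :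
    logL c e s = Pool.Agent.H21.RF.logE c e s := by
  unfold logL Pool.Agent.H21.RF.logE
  refine tsum_congr fun x => ?_
  rw [ps_eq]
  push_cast
  rfl

theorem local_of {a b : 𝓞 K} {c e : HeightOneSpectrum (𝓞 K) → ℤ} (hce : IsLocalData a b c e) :
    Pool.Agent.X287.Kit.Local a b c e := ⟨fun v hv => by
    obtain ⟨h1, h2⟩ := hce.1 v hv
    constructor
    · rw [h1]
      push_cast
      rfl
    · rw [h2]
      push_cast
      rfl, hce.2⟩

end one

section fam

variable {ι : Type} [Fintype ι] {K : ι → Type} [∀ i, Field (K i)] [∀ i, NumberField (K i)]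

theorem zf_iff (c e : ∀ i, HeightOneSpectrum (𝓞 (K i)) → ℤ) (w : ι → ℝ) {P : ℂ → Prop} {U : Set ℂ}
    (hP : ∀ z, P (1 + z) ↔ z ∈ U) : ZeroFree c e w P ↔ ∃ G : ℂ → ℂ, Pool.Agent.H21.RF.ExtR
      (fun z => ∑ i, (w i : ℂ) * Pool.Agent.H21.RF.logE (c i) (e i) (1 + z)) U G := by
  unfold ZeroFree IsPowerProduct
  simp only [logL_eq]
  exact Pool.Agent.H21.RF.shift_iff (R := fun s => ∑ i, (w i : ℂ) *
    Pool.Agent.H21.RF.logE (c i) (e i) s) hP

end fam

open Pool.Agent.X287.Kit Pool.Agent.H21.RF in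
/-- **Products of `L`-series and the transport of meromorphic continuations.** -/
theorem result {ι : Type} [Fintype ι] [Nonempty ι] [DecidableEq ι] (K : ι → Type)
    [∀ i, Field (K i)] [∀ i, NumberField (K i)] (a b : ∀ i, 𝓞 (K i))
    (c e : ∀ i, HeightOneSpectrum (𝓞 (K i)) → ℤ) (hce : ∀ i, IsLocalData (a i) (b i) (c i) (e i))
    (L : ι → ℂ → ℂ) (hL : ∀ i, IsLSeries (c i) (e i) (L i)) :
    (∀ i, ∀ ρ' Y : ℝ, (pairs (K i) ρ' Y).Finite) ∧
    -- 1. real exponents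
    (∀ (w : ι → ℝ) (ρ ρ' θ : ℝ), 1 < ρ → ρ < ρ' → 0 ≤ θ →
      (ZeroFree c e w (InH ρ θ) ↔ ∀ ε : ℝ, 0 < ε → ∀ᶠ Y : ℝ in atTop,
        |∑ i, w i * S (c i) (e i) ρ ρ' Y| ≤ Real.exp ((θ + ε) * Real.log Y ^ ρ)) ∧
      ∀ Ψ : ℂ → ℂ, IsPowerProduct c e w Ψ → (∀ x : ℝ, 1 < x → x ≤ 3 / 2 → AnalyticAt ℂ Ψ (x : ℂ)) →
        (ZeroFree c e w (InH ρ θ) ↔ ∀ ε : ℝ, 0 < ε → ∀ᶠ Y : ℝ in atTop,
          ∑ i, w i * S (c i) (e i) ρ ρ' Y ≤ Real.exp ((θ + ε) * Real.log Y ^ ρ))) ∧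
    -- 2. transport
    (∀ (m : ι → ℤ) (j : ι), m j = 1 ∨ m j = -1 → ∀ κ : ℝ, 0 ≤ κ → ∀ t : ℝ → ℝ, (∀ ρ, ρ < t ρ) →
      ∀ F : ι → ℂ → ℂ, (∀ i, i ≠ j → IsMeromorphicContinuation κ (L i) (F i)) →
      ((∃ f : ℂ → ℂ, IsMeromorphicContinuation κ (L j) f ∧ ∀ s : ℂ, 1 + κ < s.re →
          m j * ord f s + ∑ i ∈ Finset.univ.erase j, m i * ord (F i) s = 0) ↔
        ∀ ρ : ℝ, 1 < ρ → ∀ ε : ℝ, 0 < ε → ∀ᶠ Y : ℝ in atTop,
          |∑ i, m i * S (c i) (e i) ρ (t ρ) Y| ≤ Real.exp ((κ ^ ρ + ε) * Real.log Y ^ ρ))) ∧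
    -- 3. cancellation of orders
    ∀ κ : ℝ, 0 ≤ κ → ∀ F : ι → ℂ → ℂ, (∀ i, IsMeromorphicContinuation κ (L i) (F i)) →
      ∀ t : ℝ → ℝ, (∀ ρ, ρ < t ρ) → ∀ w : ι → ℝ,
      ((∀ s : ℂ, 1 + κ < s.re → ∑ i, w i * (ord (F i) s : ℝ) = 0) ↔
        ∀ ρ : ℝ, 1 < ρ → ∀ ε : ℝ, 0 < ε → ∀ᶠ Y : ℝ in atTop,
          |∑ i, w i * S (c i) (e i) ρ (t ρ) Y| ≤ Real.exp ((κ ^ ρ + ε) * Real.log Y ^ ρ)) := by
  have hloc : ∀ i, Local (a i) (b i) (c i) (e i) := fun i => local_of (hce i)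
  have hc : (1 : ℂ) = ((1 : ℝ) : ℂ) := by norm_num
  have ha : (3 / 2 : ℝ) = 1 + 1 / 2 := by norm_num
  have hneg : ∀ (w : ι → ℝ) (ρ ρ' Y : ℝ), ∑ i, w i * S (c i) (e i) ρ ρ' Y =
      -∑ i, w i * Pool.Agent.TH942.ES.StE (NN (K i)) (AA (c i) (e i)) ρ ρ' Y := by
    intro w ρ ρ' Y
    rw [← Finset.sum_neg_distrib]
    refine Finset.sum_congr rfl fun i _ => ?_
    rw [S_eq]
    ring
  have hIL : ∀ i, IsL (3 / 2) (lfac (c i) (e i)) (L i) := fun i => hL i
  have hLd : ∀ i, ∀ s : ℂ, 3 / 2 < s.re → DifferentiableAt ℂ (L i) s := fun i s hs =>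
    L_diff (hloc i) (hIL i) hs
  have hLe : ∀ i, ∀ s : ℂ, 3 / 2 < s.re → L i s = Complex.exp (logE (c i) (e i) s) := fun i s hs =>
    L_exp (hloc i) (hIL i) hs
  have hL0 : ∀ i, ∀ s : ℂ, 3 / 2 < s.re → L i s ≠ 0 := fun i s hs => by
    rw [hLe i s hs]
    exact Complex.exp_ne_zero _
  have key : ∀ (w : ι → ℝ) (κ : ℝ), 0 ≤ κ → ∀ t : ℝ → ℝ, (∀ ρ, ρ < t ρ) →
      (ZeroFree c e w (fun s => 1 + κ < s.re) ↔
        ∀ ρ : ℝ, 1 < ρ → ∀ ε : ℝ, 0 < ε → ∀ᶠ Y : ℝ in atTop,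
          |∑ i, w i * S (c i) (e i) ρ (t ρ) Y| ≤ Real.exp ((κ ^ ρ + ε) * Real.log Y ^ ρ)) := by
    intro w κ hκ t ht
    obtain ⟨lam, cc, H⟩ := pk_curves hloc w
    have hz := zf_iff c e w (P := fun s => 1 + κ < s.re) (U := {z : ℂ | κ < z.re}) (fun z => by
      rw [Complex.add_re, Complex.one_re, Set.mem_ofPred_eq]
      constructor <;> intro h <;> linarith)
    rw [hz, H.half_two hκ ht]
    simp only [hneg w, abs_neg]
  refine ⟨fun i ρ' Y => (full_sys (hloc i) (c₀ := 1) le_rfl).finS _, fun w ρ ρ' θ h1 h2 h3 => ?_,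
    fun m j hj κ hκ t ht F hF => ?_, fun κ hκ F hF t ht w => ?_⟩
  · obtain ⟨lam, cc, H⟩ := pk_curves hloc w
    have hz := zf_iff c e w (P := InH ρ θ) (U := Pool.Agent.X287.RS.Hyp ρ θ) (inHyp_iff 1 ρ θ)
    constructor
    · rw [hz, H.level_two h1 h2 h3]
      simp only [hneg, abs_neg]
    · intro Ψ hΨ hr
      have hre : ∀ z : ℂ, (1 + z).re = 1 + z.re := fun z => by
        rw [Complex.add_re, Complex.one_re]
      have he : ∀ s : ℂ, 1 / 2 < s.re → Ψ (1 + s) =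
          Complex.exp (∑ i, (w i : ℂ) * logE (c i) (e i) (1 + s)) := by
        intro s hs
        rw [hΨ (1 + s) (by rw [hre]; linarith)]
        simp only [logL_eq]
      rw [hz, H.level_one (Ψ := fun s => Ψ (1 + s)) (fun x hx => ?_) he h1 h2 h3]
      · simp only [hneg]
      · rcases le_or_gt x (1 / 2) with h4 | h4
        · have h5 : AnalyticAt ℂ Ψ (1 + (x : ℂ)) := by
            have := hr (1 + x) (by linarith) (by linarith)
            push_cast at this
            exact this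
          exact AnalyticAt.comp (f := fun s : ℂ => 1 + s) h5 (by fun_prop)
        · have ho : IsOpen {z : ℂ | 1 / 2 < z.re} := half_open' _
          have h5 : DifferentiableOn ℂ (fun s => Ψ (1 + s)) {z : ℂ | 1 / 2 < z.re} := by
            intro s hs
            have hs' : 1 / 2 < s.re := hs
            refine ((H.R_diff hs').cexp.congr_of_eventuallyEq ?_).differentiableWithinAt
            filter_upwards [ho.mem_nhds hs] with z hz
            exact he z hz
          exact h5.analyticAt (ho.mem_nhds (show 1 / 2 < ((x : ℂ)).re by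
            rwa [Complex.ofReal_re]))
  · have hprod : ∀ s : ℂ, 3 / 2 < s.re →
        Complex.exp (∑ i, (((m i : ℤ) : ℝ) : ℂ) * logL (c i) (e i) s) = ∏ i, L i s ^ m i := by
      intro s hs
      rw [Complex.exp_sum]
      refine Finset.prod_congr rfl fun i _ => ?_
      rw [hLe i s hs, logL_eq, ← Complex.exp_int_mul]
      push_cast
      rfl
    rw [← key (fun i => (m i : ℝ)) κ hκ t ht]
    constructor
    · rintro ⟨f, hf, h0⟩
      obtain ⟨G, hG1, hG2⟩ := bwd (a := 1 + κ) (b := 3 / 2) (LL := L)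
        (FF := fun i => if i = j then f else F i) (m := m) hLd hL0
        (fun i => by
          by_cases hi : i = j
          · subst hi
            simp only [if_true]
            exact ⟨hf.1, hf.2⟩
          · simp only [if_neg hi]
            exact ⟨(hF i hi).1, (hF i hi).2⟩)
        (fun s hs => by
          rw [← Finset.add_sum_erase Finset.univ _ (Finset.mem_univ j)]
          simp only [if_true]
          rw [← h0 s hs]
          congr 1
          refine Finset.sum_congr rfl fun i hi => ?_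
          rw [if_neg (Finset.ne_of_mem_erase hi)]
          rfl)
      exact ⟨G, fun s hs => by rw [hG2 s hs, ← hprod s hs], hG1⟩
    · rintro ⟨G, hG1, hG2⟩
      have ho : IsOpen {z : ℂ | 1 + κ < z.re} := half_open' _
      obtain ⟨f, hf1, hf2⟩ := fwd (a := 1 + κ) (b := 3 / 2) (LL := L) (FF := F) hj hLd hL0
        (G := G) (fun s hs => by
          have h1 : DifferentiableOn ℂ G {z : ℂ | 1 + κ < z.re} := fun z hz =>
            (hG2 z (Or.inl hz)).1.differentiableWithinAt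
          exact ⟨h1.analyticAt (ho.mem_nhds hs), (hG2 s (Or.inl hs)).2⟩)
        (fun s hs => by rw [hG1 s hs, hprod s hs])
        (fun i hi => ⟨(hF i hi).1, (hF i hi).2⟩)
      exact ⟨f, ⟨hf1.eq, hf1.mero⟩, hf2⟩
  · rw [← key w κ hκ t ht]
    have h1 := real_iff (a := 1 + κ) (b := 3 / 2) (LL := L) (FF := F)
      (Λ := fun i => logE (c i) (e i)) (w := w) (fun i s hs => logE_diff (hloc i) hs) hLe
      fun i => ⟨(hF i).1, (hF i).2⟩
    unfold ZeroFree IsPowerProduct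
    simp only [logL_eq]
    exact h1.symm

end Pool.Agent.Results.MP_0d9be2_nt.SeveralCurvesGrowth
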